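import Pool.Agent.Lib.MP_cc7fb1_cn.Res
import Pool.Agent.Lib.MP_cc7fb1_cf.V6
import Pool.Agent.Lib.MP_cc7fb1_cf.G3
import Pool.Agent.Lib.MP_cc7fb1_cf.Lab

/-!
# MP_cc7fb1_lc: a uniform `κ`-complete ultrafilter on `κ⁺` with the Galvin property is consistent

Assume that `κ` is indestructible (`Indestructible`) and that `lam > κ` is huge with target `del`
(`IsHuge`).  Then there is a countable transitive model `V` of `ZFC` in which there are an
uncountable cardinal `k` and a uniform `k`-complete ultrafilter `u` on `k⁺` which satisfies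
`Gal(u, k⁺, k⁺⁺)`.
-/

set_option autoImplicit false

open Cardinal Set

namespace Pool.Agent.Results.MP_cc7fb1_lc.GalvinConsistent

open Pool.MP_3ade05_lc Pool.PC Pool.UL Pool.CF

theorem result (κ lam del : Cardinal.{0}) (hκ : Indestructible κ) (h1 : κ < lam)
    (h2 : IsHuge lam del) :
    ∃ V : Set ZFSet.{0}, V.Countable ∧ (∀ x ∈ V, ∀ y ∈ x, y ∈ V) ∧ ZFCModel V ∧
      ∃ k k₁ k₂ u : ZFSet.{0}, InfCard V k ∧ ZFSet.omega ∈ k ∧ NextCard V k k₁ ∧
        NextCard V k₁ k₂ ∧ UnifUF V k₁ u ∧ CompleteV V k k₁ u ∧ GalV V k₁ u k₁ k₂ := by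
  obtain ⟨h, hk, -⟩ := exists_HG hκ.reg hκ.unc hκ.sl h1 h2
  obtain ⟨s, hs⟩ := @exists_SG del.ord.ToType (XX lam del) _ _ h
  subst hs
  have hs1 : Indestructible (@Pool.CV.vs del.ord.ToType (XX lam del) _ _ s).κ := by
    show Indestructible s.toHG.κ
    rw [hk]
    exact hκ
  exact Pool.CN.negative_of_VS (@Pool.CV.vs del.ord.ToType (XX lam del) _ _ s) hs1

end Pool.Agent.Results.MP_cc7fb1_lc.GalvinConsistent
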