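import Mathlib
import Pool.Agent.Lib.MP_cc7fb1_lc.Main

/-!
# MP_cc7fb1: `(κ, κ⁺)`-regular `κ`-complete uniform ultrafilters on `κ⁺` are non-Galvin
-/

namespace Pool.Agent.Results.MP_cc7fb1_lc.RegularNonGalvin

open Cardinal Set
open Pool.Agent.Lib.MP_cc7fb1_lc

universe u

theorem result {α : Type u} {κ : Cardinal.{u}} (hκ : ℵ₀ < κ) (hα : #α = Order.succ κ)
    (U : Ultrafilter α) (hu : UniformUF U) (hc : CompleteFilter (U : Filter α) κ)
    (hreg : RegularUF U κ (Order.succ κ)) :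
    ¬ Gal U κ (Order.succ (Order.succ κ)) ∧
      ¬ Gal U (Order.succ κ) (Order.succ (Order.succ κ)) :=
  have h := not_gal_of_regular hκ hα hu hc hreg
  ⟨h, fun h' => h (h'.mono (Order.le_succ κ))⟩

end Pool.Agent.Results.MP_cc7fb1_lc.RegularNonGalvin
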