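import Mathlib
import Pool.Agent.Lib.MP_cc7fb1_lc.DenseGal

/-!
# MP_cc7fb1: weakly normal ultrafilters over dense ideals have the Galvin property

If `2 ^ κ = κ⁺` and `U` is a weakly normal ultrafilter on `κ⁺` which extends the dual filter of a
normal ideal whose quotient algebra has a dense subset of size `κ⁺`, then `Gal(U, κ⁺, κ⁺⁺)` holds.
-/

set_option autoImplicit false

namespace Pool.Agent.Results.MP_cc7fb1_lc.WeaklyNormalCriterion

open Cardinal Set
open Pool.Agent.Lib.MP_cc7fb1_lc

universe u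

theorem result {κ : Cardinal.{u}} (hκ : ℵ₀ < κ) (h2 : (2 : Cardinal.{u}) ^ κ = Order.succ κ)
    (F : Filter (Pts κ)) (hF : NormalFilter F) (D : Pts κ → Set (Pts κ)) (hD : DenseFamily F D)
    (U : Ultrafilter (Pts κ)) (hU : (U : Filter (Pts κ)) ≤ F) (hw : WeaklyNormal U) :
    Gal U (Order.succ κ) (Order.succ (Order.succ κ)) :=
  gal_of_weaklyNormal hF hκ.le h2 hD hU hw

end Pool.Agent.Results.MP_cc7fb1_lc.WeaklyNormalCriterion
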